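import Mathlib
import Pool.Agent.Lib.MP_ccd76d_co.Defs
import Pool.Agent.Lib.MP_ccd76d_co.Packing

set_option autoImplicit false

namespace Pool.Agent.Results.MP_ccd76d_co.SolidStable

open Pool.Agent.Lib.MP_ccd76d_co

/-- In every dimension `d ≥ 1` a solid packing of congruent copies of a convex body is uniformly
finitely stable, the only exception being the (degenerate) families with exactly one member. -/
theorem result :
    ∀ d : ℕ, 1 ≤ d → ∀ K : Set (EuclideanSpace ℝ (Fin d)), IsConvexBody K →
      ∀ C : Set (Set (EuclideanSpace ℝ (Fin d))), IsPackingOf K C → IsSolid K C →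
        (IsUniformlyFinitelyStable K C ↔ ¬ ∃ B, C = {B}) := by
  intro d hd K hK C hC hS
  constructor
  · rintro hU ⟨B, rfl⟩
    exact not_stable_single hK hd (hC.1 B rfl) hU
  · intro h1
    by_cases hnt : C.Nontrivial
    · exact stable_of_solid hK hC hS hd hnt
    · have hsub : C.Subsingleton := Set.not_nontrivial_iff.mp hnt
      rcases hsub.eq_empty_or_singleton with h | ⟨B, h⟩
      · refine ⟨1, one_pos, fun φ _ _ B hB => ?_⟩
        rw [h] at hB
        exact absurd hB (Set.notMem_empty B)
      · exact absurd ⟨B, h⟩ h1

end Pool.Agent.Results.MP_ccd76d_co.SolidStable
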